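import Mathlib

/-!
Volume of the holes: if `n` directions never light all of a convex set `K`, then for all vectors
`v 1, .., v n` and every measurable set `A` the part of `A + K` outside the translates
`v i + interior K` has at least the volume of `A`.
-/

set_option autoImplicit false

open MeasureTheory Set Module Filter Topology
open scoped Pointwise

namespace Pool.Agent.Lib.MP_5e7226_co.VF

variable {E : Type*} [NormedAddCommGroup E] [NormedSpace ℝ E]

/-- The direction `w` lights the point `x` of `K`. -/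
def Lit (K : Set E) (x w : E) : Prop := ∃ s : ℝ, 0 < s ∧ x + s • w ∈ interior K

/-- The exchange step: adding a multiple of `x - y`, `y ∈ K`, to a direction can only turn the
light at `x` off. -/
theorem lit_shift {K : Set E} (hc : Convex ℝ K) {x y w : E} (hy : y ∈ K) {s : ℝ} (hs : 0 ≤ s)
    (h : Lit K x (w + s • (x - y))) : Lit K x w := by
  obtain ⟨r, hr, h⟩ := h
  have h1 : 0 < 1 + r * s := by positivity
  refine ⟨r / (1 + r * s), by positivity, ?_⟩
  have e : x + (r / (1 + r * s)) • w = (1 / (1 + r * s)) • (x + r • (w + s • (x - y))) +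
      (r * s / (1 + r * s)) • y := by
    have e1 : (1 / (1 + r * s)) • ((1 + r * s) • x) = x := by
      rw [smul_smul, one_div_mul_cancel h1.ne', one_smul]
    have e2 : x + r • (w + s • (x - y)) = (1 + r * s) • x + (r • w - (r * s) • y) := by
      module
    rw [e2, smul_add, e1, smul_sub, smul_smul, smul_smul]
    have e3 : 1 / (1 + r * s) * r = r / (1 + r * s) := by ring
    have e4 : 1 / (1 + r * s) * (r * s) = r * s / (1 + r * s) := by ring
    rw [e3, e4]
    abel
  rw [e]
  exact hc.combo_interior_self_mem_interior h hy (by positivity) (by positivity) (by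
    rw [← add_div]; exact div_self h1.ne')

/-- The points `a` from which `x` is lit by none of the directions `a - v i`. -/
def Un (K : Set E) {n : ℕ} (v : Fin n → E) (x : E) : Set E := {a | ∀ c, ¬ Lit K x (a - v c)}

theorem un_shift {K : Set E} (hc : Convex ℝ K) {n : ℕ} (v : Fin n → E) {x y a : E} (hy : y ∈ K)
    {s : ℝ} (hs : 0 ≤ s) (ha : a ∈ Un K v x) : a + s • (x - y) ∈ Un K v x := by
  intro c h
  refine ha c (lit_shift hc hy hs ?_)
  have e : a + s • (x - y) - v c = a - v c + s • (x - y) := by abel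
  rwa [e] at h

theorem int_un_shift {K : Set E} (hc : Convex ℝ K) {n : ℕ} (v : Fin n → E) {x y a : E}
    (hy : y ∈ K) (ha : a ∈ interior (Un K v x)) : a + (x - y) ∈ interior (Un K v x) := by
  have h1 : (Homeomorph.addRight (x - y)) '' interior (Un K v x) ⊆ Un K v x := by
    rintro _ ⟨b, hb, rfl⟩
    have := un_shift hc v hy zero_le_one (interior_subset hb)
    rwa [one_smul] at this
  have h2 : IsOpen ((Homeomorph.addRight (x - y)) '' interior (Un K v x)) :=
    (Homeomorph.addRight (x - y)).isOpenMap _ isOpen_interior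
  exact interior_maximal h1 h2 ⟨a, ha, rfl⟩

theorem un_cone {K : Set E} (hc : Convex ℝ K) {n : ℕ} (v : Fin n → E) {x y a : E}
    (hy : y ∈ interior K) {s : ℝ} (hs : 0 < s) (ha : a ∈ Un K v x) :
    a + s • (x - y) ∈ interior (Un K v x) := by
  rw [mem_interior_iff_mem_nhds]
  have hg : ContinuousAt (fun b : E => x - s⁻¹ • (b - a)) (a + s • (x - y)) := by fun_prop
  have h1 : x - s⁻¹ • (a + s • (x - y) - a) = y := by
    rw [add_sub_cancel_left, smul_smul, inv_mul_cancel₀ hs.ne', one_smul]
    abel
  have h2 : interior K ∈ 𝓝 (x - s⁻¹ • (a + s • (x - y) - a)) := by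
    rw [h1]
    exact isOpen_interior.mem_nhds hy
  filter_upwards [hg h2] with b hb
  have h3 := un_shift hc v (interior_subset hb) hs.le ha
  have h4 : a + s • (x - (x - s⁻¹ • (b - a))) = b := by
    rw [sub_sub_cancel, smul_smul, mul_inv_cancel₀ hs.ne', one_smul]
    abel
  rwa [h4] at h3

section Measure

variable [MeasurableSpace E] [BorelSpace E] [FiniteDimensional ℝ E] (μ : Measure E)
  [μ.IsAddHaarMeasure]

/-- A closed set from every point of which some half-line of a countable family leaves at once and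
for ever is a null set. -/
theorem null_of_rays {N D : Set E} (hN : MeasurableSet N) (hD : D.Countable)
    (h : ∀ a ∈ N, ∃ e ∈ D, ∀ s : ℝ, 0 < s → a + s • e ∉ N) : μ N = 0 := by
  set P : E → Set E := fun e => N ∩ ⋂ q : ℚ, {a | 0 < q → a + (q : ℝ) • e ∉ N} with hP
  have hsub : N ⊆ ⋃ e ∈ D, P e := by
    intro a ha
    obtain ⟨e, he, h1⟩ := h a ha
    simp only [mem_iUnion]
    exact ⟨e, he, ha, mem_iInter.2 fun q hq => h1 q (by exact_mod_cast hq)⟩
  have hPm : ∀ e, MeasurableSet (P e) := by
    intro e
    refine hN.inter (MeasurableSet.iInter fun q => ?_)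
    by_cases hq : 0 < q
    · have : {a | 0 < q → a + (q : ℝ) • e ∉ N} = (fun a => a + (q : ℝ) • e) ⁻¹' Nᶜ := by
        ext a
        simp [hq]
      rw [this]
      exact hN.compl.preimage (by fun_prop)
    · have : {a | 0 < q → a + (q : ℝ) • e ∉ N} = univ := by
        ext a
        simp [hq]
      rw [this]
      exact MeasurableSet.univ
  have hP0 : ∀ e, μ (P e) = 0 := by
    intro e
    refine Measure.addHaar_eq_zero_of_disjoint_translates μ
      (fun k : ℕ => ((1 / ((k : ℚ) + 1) : ℚ) : ℝ) • e) ?_ ?_ (hPm e)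
    · refine (Metric.isBounded_closedBall (x := (0 : E)) (r := ‖e‖)).subset ?_
      rintro _ ⟨k, rfl⟩
      rw [mem_closedBall_zero_iff, norm_smul]
      have h1 : ‖((1 / ((k : ℚ) + 1) : ℚ) : ℝ)‖ ≤ 1 := by
        push_cast
        rw [Real.norm_eq_abs, abs_of_nonneg (by positivity), div_le_one (by positivity)]
        have : (0 : ℝ) ≤ k := Nat.cast_nonneg k
        linarith
      calc ‖((1 / ((k : ℚ) + 1) : ℚ) : ℝ)‖ * ‖e‖ ≤ 1 * ‖e‖ :=
            mul_le_mul_of_nonneg_right h1 (norm_nonneg _)
        _ = ‖e‖ := one_mul _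
    · have key : ∀ k l : ℕ, k < l → Disjoint ({((1 / ((k : ℚ) + 1) : ℚ) : ℝ) • e} + P e)
          ({((1 / ((l : ℚ) + 1) : ℚ) : ℝ) • e} + P e) := by
        intro k l hkl
        rw [Set.disjoint_left]
        rintro z hz1 hz2
        rw [singleton_add, mem_image] at hz1 hz2
        obtain ⟨a, ha, rfl⟩ := hz1
        obtain ⟨b, hb, hab⟩ := hz2
        have hq : (0 : ℚ) < 1 / ((k : ℚ) + 1) - 1 / ((l : ℚ) + 1) := by
          rw [sub_pos]
          have : (k : ℚ) < l := by exact_mod_cast hkl
          exact one_div_lt_one_div_of_lt (by positivity) (by linarith)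
        have h1 := mem_iInter.1 ha.2 _ hq
        apply h1
        have h2 : a + ((1 / ((k : ℚ) + 1) - 1 / ((l : ℚ) + 1) : ℚ) : ℝ) • e = b := by
          rw [Rat.cast_sub, sub_smul]
          have := hab
          calc a + (((1 / ((k : ℚ) + 1) : ℚ) : ℝ) • e - ((1 / ((l : ℚ) + 1) : ℚ) : ℝ) • e)
              = (((1 / ((k : ℚ) + 1) : ℚ) : ℝ) • e + a) - ((1 / ((l : ℚ) + 1) : ℚ) : ℝ) • e := by
                abel
            _ = b := by rw [← hab]; abel
        rw [h2]
        exact hb.1
      intro k l hkl
      rcases lt_or_gt_of_ne hkl with h1 | h1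
      · exact key k l h1
      · exact (key l k h1).symm
  refine measure_mono_null hsub ?_
  exact (measure_biUnion_null_iff hD).2 fun e _ => hP0 e

/-- **Volume of the holes.** -/
theorem hole_volume {K : Set E} (hc : Convex ℝ K) (hi : (interior K).Nonempty) {n : ℕ}
    (H : ∀ w : Fin n → E, ∃ x ∈ K, ∀ c, ¬ Lit K x (w c)) (v : Fin n → E) {A : Set E}
    (hA : MeasurableSet A) :
    μ A ≤ μ ((A + K) \ ⋃ c, v c +ᵥ interior K) := by
  classical
  obtain ⟨y0, hy0⟩ := hi
  -- the open sets
  obtain ⟨T, hT, hTU⟩ := TopologicalSpace.isOpen_iUnion_countable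
    (fun x : K => interior (Un K v (x : E))) (fun x => isOpen_interior)
  obtain ⟨x, hx⟩ : ∃ x : ℕ → K, insert (⟨y0, interior_subset hy0⟩ : K) T = range x :=
    (hT.insert _).exists_eq_range (insert_nonempty _ _)
  set V : ℕ → Set E := fun k => interior (Un K v (x k : E)) with hV
  have hVU : ∀ y ∈ K, interior (Un K v y) ⊆ ⋃ k, V k := by
    intro y hy a ha
    have h1 : a ∈ ⋃ i ∈ T, interior (Un K v (i : E)) := by
      rw [hTU]
      exact mem_iUnion.2 ⟨⟨y, hy⟩, ha⟩
    simp only [mem_iUnion] at h1
    obtain ⟨i, hi, h2⟩ := h1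
    have h3 : i ∈ range x := by
      rw [← hx]
      exact mem_insert_of_mem _ hi
    obtain ⟨k, rfl⟩ := h3
    exact mem_iUnion.2 ⟨k, h2⟩
  -- almost every point is in one of them
  have hnull : μ (⋃ k, V k)ᶜ = 0 := by
    obtain ⟨D, hDc, hDd⟩ := TopologicalSpace.exists_countable_dense E
    refine null_of_rays μ (isOpen_iUnion fun k => isOpen_interior).measurableSet.compl hDc ?_
    intro a _
    obtain ⟨y, hyK, hy⟩ := H (fun c => a - v c)
    have ha : a ∈ Un K v y := hy
    have hO : IsOpen ((fun z => y - z) ⁻¹' interior K) :=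
      isOpen_interior.preimage (by fun_prop)
    obtain ⟨e, heO, heD⟩ := hDd.inter_open_nonempty _ hO ⟨y - y0, by
      simp only [mem_preimage, sub_sub_cancel]; exact hy0⟩
    refine ⟨e, heD, fun s hs hmem => hmem (hVU y hyK ?_)⟩
    have h1 := un_cone hc v (y := y - e) heO hs ha
    rwa [sub_sub_cancel] at h1
  -- the pieces
  set P : ℕ → Set E := fun k => (fun z => z - (x k : E)) ⁻¹' (A ∩ disjointed V k) with hP
  have hVm : ∀ k, MeasurableSet (V k) := fun k => isOpen_interior.measurableSet
  have hdm : ∀ k, MeasurableSet (disjointed V k) := fun k => MeasurableSet.disjointed hVm k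
  have hPm : ∀ k, MeasurableSet (P k) := fun k => (hA.inter (hdm k)).preimage (by fun_prop)
  have hPdis : Pairwise (Function.onFun Disjoint P) := by
    have key : ∀ i j : ℕ, i < j → Disjoint (P i) (P j) := by
      intro i j hij
      rw [Set.disjoint_left]
      intro z hz1 hz2
      have h1 : z - (x i : E) ∈ V i := disjointed_subset V i hz1.2
      have h2 : z - (x j : E) ∉ V i := by
        have h3 := hz2.2
        rw [disjointed_apply] at h3
        intro h4
        apply h3.2
        simp only [Finset.sup_set_eq_biUnion, mem_iUnion]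
        exact ⟨i, Finset.mem_Iio.2 hij, h4⟩
      apply h2
      have h3 := int_un_shift hc v (x := (x i : E)) (y := (x j : E)) (x j).2 h1
      have e : z - (x i : E) + ((x i : E) - (x j : E)) = z - (x j : E) := by abel
      rwa [e] at h3
    intro i j hij
    rcases lt_or_gt_of_ne hij with h | h
    · exact key i j h
    · exact (key j i h).symm
  have hPsub : (⋃ k, P k) ⊆ (A + K) \ ⋃ c, v c +ᵥ interior K := by
    intro z hz
    obtain ⟨k, hk⟩ := mem_iUnion.1 hz
    have h1 : z - (x k : E) ∈ A := hk.1
    have h2 : z - (x k : E) ∈ Un K v (x k : E) :=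
      interior_subset (disjointed_subset V k hk.2)
    refine ⟨⟨z - (x k : E), h1, (x k : E), (x k).2, by simp⟩, ?_⟩
    intro h3
    obtain ⟨c, hc'⟩ := mem_iUnion.1 h3
    obtain ⟨b, hb, hbz⟩ := hc'
    refine h2 c ⟨1, one_pos, ?_⟩
    have e : (x k : E) + (1 : ℝ) • (z - (x k : E) - v c) = b := by
      rw [one_smul, ← hbz]
      simp only [vadd_eq_add]
      abel
    rw [e]
    exact hb
  calc μ A = μ (A ∩ ⋃ k, V k) := by
        refine le_antisymm ?_ (measure_mono inter_subset_left)
        calc μ A ≤ μ (A ∩ ⋃ k, V k) + μ (A \ ⋃ k, V k) := measure_le_inter_add_sdiff μ A _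
          _ ≤ μ (A ∩ ⋃ k, V k) + μ (⋃ k, V k)ᶜ := by
            gcongr
            exact fun a ha => ha.2
          _ = μ (A ∩ ⋃ k, V k) := by rw [hnull, add_zero]
    _ = μ (⋃ k, A ∩ disjointed V k) := by rw [← inter_iUnion, iUnion_disjointed]
    _ = ∑' k, μ (A ∩ disjointed V k) := by
        refine measure_iUnion ?_ fun k => hA.inter (hdm k)
        intro i j hij
        exact (disjoint_disjointed V hij).mono inter_subset_right inter_subset_right
    _ = ∑' k, μ (P k) := by
        refine tsum_congr fun k => ?_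
        exact ((measurePreserving_sub_right μ (x k : E)).measure_preimage
          (hA.inter (hdm k)).nullMeasurableSet).symm
    _ = μ (⋃ k, P k) := (measure_iUnion hPdis hPm).symm
    _ ≤ μ ((A + K) \ ⋃ c, v c +ᵥ interior K) := measure_mono hPsub

end Measure

end Pool.Agent.Lib.MP_5e7226_co.VF
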