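import Mathlib

/-!
Hitting lemma for measurable sets: if `R + L ⊆ S` then some translate of `L` covers more than any
proportion of `R` below `μ L / μ S`; greedy choice of translates.
-/

set_option autoImplicit false
set_option linter.unusedSectionVars false

open MeasureTheory Set Module Filter Topology
open scoped Pointwise ENNReal

namespace Pool.Agent.Lib.MP_5e7226_co.VF

variable {E : Type*} [NormedAddCommGroup E] [NormedSpace ℝ E] [MeasurableSpace E] [BorelSpace E]
  [FiniteDimensional ℝ E] (μ : Measure E) [μ.IsAddHaarMeasure]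

/-- The indicator function with values in `ℝ≥0∞`. -/
noncomputable def ii (L : Set E) : E → ℝ≥0∞ := L.indicator 1

theorem ii_meas {L : Set E} (hL : MeasurableSet L) : Measurable (ii L) :=
  measurable_one.indicator hL

theorem ii_mem {L : Set E} {x : E} (h : x ∈ L) : ii L x = 1 := by
  simp [ii, h]

theorem ii_not_mem {L : Set E} {x : E} (h : x ∉ L) : ii L x = 0 := by
  simp [ii, h]

theorem lint_ii {L : Set E} (hL : MeasurableSet L) : ∫⁻ x, ii L x ∂μ = μ L := by
  unfold ii
  exact lintegral_indicator_one hL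

/-- `f v = μ (R ∩ (v + L))`. -/
noncomputable def ff (R L : Set E) (v : E) : ℝ≥0∞ := ∫⁻ x, ii R x * ii L (x - v) ∂μ

/-- `F w = μ (R ∩ (w - L))`. -/
noncomputable def gg (R L : Set E) (w : E) : ℝ≥0∞ := ∫⁻ x, ii R x * ii L (w - x) ∂μ

theorem ff_eq {R L : Set E} (hR : MeasurableSet R) (hL : MeasurableSet L) (v : E) :
    ff μ R L v = μ (R ∩ (v +ᵥ L)) := by
  unfold ff
  have hm : MeasurableSet (R ∩ (v +ᵥ L)) := hR.inter (hL.const_vadd v)
  rw [← lint_ii μ hm]
  refine lintegral_congr fun x => ?_
  have h1 : x ∈ v +ᵥ L ↔ x - v ∈ L := by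
    rw [mem_vadd_set_iff_neg_vadd_mem, vadd_eq_add]
    rw [show -v + x = x - v by abel]
  by_cases hx : x ∈ R
  · by_cases hy : x - v ∈ L
    · have h2 : x ∈ R ∩ (v +ᵥ L) := ⟨hx, h1.2 hy⟩
      rw [ii_mem hx, ii_mem hy, ii_mem h2, one_mul]
    · have h2 : x ∉ R ∩ (v +ᵥ L) := fun h => hy (h1.1 h.2)
      rw [ii_not_mem hy, ii_not_mem h2, mul_zero]
  · have h2 : x ∉ R ∩ (v +ᵥ L) := fun h => hx h.1
    rw [ii_not_mem hx, ii_not_mem h2, zero_mul]

theorem meas_a {R L : Set E} (hR : MeasurableSet R) (hL : MeasurableSet L) :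
    Measurable (fun p : E × E => ii R p.2 * ii L (p.2 - p.1)) :=
  ((ii_meas hR).comp measurable_snd).mul ((ii_meas hL).comp (measurable_snd.sub measurable_fst))

theorem meas_b {R L : Set E} (hR : MeasurableSet R) (hL : MeasurableSet L) :
    Measurable (fun p : E × E => ii R p.2 * ii L (p.1 - p.2)) :=
  ((ii_meas hR).comp measurable_snd).mul ((ii_meas hL).comp (measurable_fst.sub measurable_snd))

theorem ff_meas {R L : Set E} (hR : MeasurableSet R) (hL : MeasurableSet L) :
    Measurable (ff μ R L) := (meas_a hR hL).lintegral_prod_right'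

theorem gg_meas {R L : Set E} (hR : MeasurableSet R) (hL : MeasurableSet L) :
    Measurable (gg μ R L) := (meas_b hR hL).lintegral_prod_right'

theorem lint_ff {R L : Set E} (hR : MeasurableSet R) (hL : MeasurableSet L) :
    ∫⁻ v, ff μ R L v ∂μ = μ R * μ L := by
  unfold ff
  rw [lintegral_lintegral_swap (meas_a hR hL).aemeasurable]
  have h : ∀ x, ∫⁻ v, ii R x * ii L (x - v) ∂μ = ii R x * μ L := by
    intro x
    have hm : Measurable (fun v => ii L (x - v)) :=
      (ii_meas hL).comp (measurable_const.sub measurable_id)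
    rw [lintegral_const_mul _ hm, lintegral_sub_left_eq_self (ii L) x, lint_ii μ hL]
  simp only [h]
  rw [lintegral_mul_const _ (ii_meas hR), lint_ii μ hR]

theorem lint_gg {R L : Set E} (hR : MeasurableSet R) (hL : MeasurableSet L) :
    ∫⁻ w, gg μ R L w ∂μ = μ R * μ L := by
  unfold gg
  rw [lintegral_lintegral_swap (meas_b hR hL).aemeasurable]
  have h : ∀ x, ∫⁻ w, ii R x * ii L (w - x) ∂μ = ii R x * μ L := by
    intro x
    have hm : Measurable (fun w => ii L (w - x)) :=
      (ii_meas hL).comp (measurable_id.sub measurable_const)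
    rw [lintegral_const_mul _ hm, lintegral_sub_right_eq_self (ii L) x, lint_ii μ hL]
  simp only [h]
  rw [lintegral_mul_const _ (ii_meas hR), lint_ii μ hR]

/-- The square of the first function. -/
theorem sq_ff {R L : Set E} (hR : MeasurableSet R) (hL : MeasurableSet L) :
    ∫⁻ v, ff μ R L v * ff μ R L v ∂μ =
      ∫⁻ x, ii R x * ∫⁻ y, ii R y * ∫⁻ v, ii L (x - v) * ii L (y - v) ∂μ ∂μ ∂μ := by
  have m1 : ∀ v, Measurable (fun x => ii R x * ii L (x - v)) := fun v =>
    (ii_meas hR).mul ((ii_meas hL).comp (measurable_id.sub measurable_const))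
  have h1 : ∀ v, ff μ R L v * ff μ R L v = ∫⁻ x, ii R x * ii L (x - v) * ff μ R L v ∂μ := by
    intro v
    rw [lintegral_mul_const _ (m1 v)]
    rfl
  simp only [h1]
  rw [lintegral_lintegral_swap]
  · refine lintegral_congr fun x => ?_
    have h2 : ∀ v, ii R x * ii L (x - v) * ff μ R L v =
        ii R x * ∫⁻ y, ii R y * (ii L (x - v) * ii L (y - v)) ∂μ := by
      intro v
      rw [mul_assoc]
      congr 1
      unfold ff
      rw [← lintegral_const_mul _ (m1 v)]
      refine lintegral_congr fun y => ?_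
      ring
    simp only [h2]
    have m3 : Measurable (fun p : E × E => ii R p.2 * (ii L (x - p.1) * ii L (p.2 - p.1))) :=
      ((ii_meas hR).comp measurable_snd).mul
        (((ii_meas hL).comp (measurable_const.sub measurable_fst)).mul
          ((ii_meas hL).comp (measurable_snd.sub measurable_fst)))
    rw [lintegral_const_mul _ m3.lintegral_prod_right']
    congr 1
    rw [lintegral_lintegral_swap m3.aemeasurable]
    refine lintegral_congr fun y => ?_
    have hm : Measurable (fun v => ii L (x - v) * ii L (y - v)) :=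
      ((ii_meas hL).comp (measurable_const.sub measurable_id)).mul
        ((ii_meas hL).comp (measurable_const.sub measurable_id))
    exact lintegral_const_mul (ii R y) hm
  · exact ((meas_a hR hL).mul ((ff_meas μ hR hL).comp measurable_fst)).aemeasurable

theorem sq_gg {R L : Set E} (hR : MeasurableSet R) (hL : MeasurableSet L) :
    ∫⁻ w, gg μ R L w * gg μ R L w ∂μ =
      ∫⁻ x, ii R x * ∫⁻ y, ii R y * ∫⁻ w, ii L (w - x) * ii L (w - y) ∂μ ∂μ ∂μ := by
  have m1 : ∀ w, Measurable (fun x => ii R x * ii L (w - x)) := fun w =>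
    (ii_meas hR).mul ((ii_meas hL).comp (measurable_const.sub measurable_id))
  have h1 : ∀ w, gg μ R L w * gg μ R L w = ∫⁻ x, ii R x * ii L (w - x) * gg μ R L w ∂μ := by
    intro w
    rw [lintegral_mul_const _ (m1 w)]
    rfl
  simp only [h1]
  rw [lintegral_lintegral_swap]
  · refine lintegral_congr fun x => ?_
    have h2 : ∀ w, ii R x * ii L (w - x) * gg μ R L w =
        ii R x * ∫⁻ y, ii R y * (ii L (w - x) * ii L (w - y)) ∂μ := by
      intro w
      rw [mul_assoc]
      congr 1
      unfold gg
      rw [← lintegral_const_mul _ (m1 w)]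
      refine lintegral_congr fun y => ?_
      ring
    simp only [h2]
    have m3 : Measurable (fun p : E × E => ii R p.2 * (ii L (p.1 - x) * ii L (p.1 - p.2))) :=
      ((ii_meas hR).comp measurable_snd).mul
        (((ii_meas hL).comp (measurable_fst.sub measurable_const)).mul
          ((ii_meas hL).comp (measurable_fst.sub measurable_snd)))
    rw [lintegral_const_mul _ m3.lintegral_prod_right']
    congr 1
    rw [lintegral_lintegral_swap m3.aemeasurable]
    refine lintegral_congr fun y => ?_
    have hm : Measurable (fun w => ii L (w - x) * ii L (w - y)) :=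
      ((ii_meas hL).comp (measurable_id.sub measurable_const)).mul
        ((ii_meas hL).comp (measurable_id.sub measurable_const))
    exact lintegral_const_mul (ii R y) hm
  · exact ((meas_b hR hL).mul ((gg_meas μ hR hL).comp measurable_fst)).aemeasurable

/-- The two functions have the same `L²` norm. -/
theorem energy {R L : Set E} (hR : MeasurableSet R) (hL : MeasurableSet L) :
    ∫⁻ v, ff μ R L v * ff μ R L v ∂μ = ∫⁻ w, gg μ R L w * gg μ R L w ∂μ := by
  rw [sq_ff μ hR hL, sq_gg μ hR hL]
  refine lintegral_congr fun x => ?_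
  congr 1
  refine lintegral_congr fun y => ?_
  congr 1
  rw [← lintegral_sub_left_eq_self (fun w => ii L (w - x) * ii L (w - y)) (x + y)]
  refine lintegral_congr fun v => ?_
  have e1 : x + y - v - x = y - v := by abel
  have e2 : x + y - v - y = x - v := by abel
  simp only [e1, e2]
  rw [mul_comm]

/-- Hitting lemma. -/
theorem exists_hit {R L S : Set E} (hR : MeasurableSet R) (hL : MeasurableSet L)
    (hS : MeasurableSet S) (hL0 : μ L ≠ 0) (hLf : μ L ≠ ⊤) (hRf : μ R ≠ ⊤)
    (hR0 : μ R ≠ 0) (hS0 : μ S ≠ 0) (hSf : μ S ≠ ⊤)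
    (hRS : ∀ x ∈ R, ∀ y ∈ L, x + y ∈ S) {m : ℝ≥0∞} (hm : m < μ R * μ L / μ S) :
    ∃ v : E, m < μ (R ∩ (v +ᵥ L)) := by
  by_contra hcon
  push Not at hcon
  set c : ℝ≥0∞ := μ R * μ L / μ S with hc
  have hc0 : μ R * μ L ≠ 0 := mul_ne_zero hR0 hL0
  have hcf : μ R * μ L ≠ ⊤ := ENNReal.mul_ne_top hRf hLf
  have hcS : c * μ S = μ R * μ L := by
    rw [hc]
    exact ENNReal.div_mul_cancel hS0 hSf
  -- upper bound
  have up : ∫⁻ v, ff μ R L v * ff μ R L v ∂μ ≤ m * (μ R * μ L) := by
    rw [← lint_ff μ hR hL, ← lintegral_const_mul _ (ff_meas μ hR hL)]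
    refine lintegral_mono fun v => ?_
    have := hcon v
    rw [← ff_eq μ hR hL v] at this
    exact mul_le_mul_left this _
  -- lower bound
  have key : ∀ w, 2 * c * gg μ R L w ≤ gg μ R L w * gg μ R L w + c * c * ii S w := by
    intro w
    by_cases hw : w ∈ S
    · rw [ii_mem hw, mul_one]
      have h1 : gg μ R L w ≤ μ R := by
        unfold gg
        rw [← lint_ii μ hR]
        refine lintegral_mono fun x => ?_
        have h2 : ii L (w - x) ≤ 1 := by
          by_cases h : w - x ∈ L
          · rw [ii_mem h]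
          · rw [ii_not_mem h]; exact zero_le_one
        calc ii R x * ii L (w - x) ≤ ii R x * 1 := mul_le_mul_right h2 _
          _ = ii R x := mul_one _
      have h2 : gg μ R L w ≠ ⊤ := ne_top_of_le_ne_top hRf h1
      have h3 : c ≠ ⊤ := ENNReal.div_ne_top hcf hS0
      lift gg μ R L w to NNReal using h2 with g
      lift c to NNReal using h3 with c'
      norm_cast
      have := two_mul_le_add_sq c' g
      calc 2 * c' * g ≤ c' ^ 2 + g ^ 2 := this
        _ = g * g + c' * c' := by ring
    · have h1 : gg μ R L w = 0 := by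
        unfold gg
        have : ∀ x, ii R x * ii L (w - x) = 0 := by
          intro x
          by_cases hx : x ∈ R
          · have h2 : w - x ∉ L := by
              intro h
              apply hw
              have := hRS x hx _ h
              rwa [add_sub_cancel] at this
            rw [ii_not_mem h2, mul_zero]
          · rw [ii_not_mem hx, zero_mul]
        simp only [this, lintegral_zero]
      rw [h1]
      simp
  have h1 : 2 * c * (μ R * μ L) ≤ ∫⁻ w, gg μ R L w * gg μ R L w ∂μ + c * c * μ S := by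
    rw [← lint_gg μ hR hL, ← lintegral_const_mul _ (gg_meas μ hR hL), ← lint_ii μ hS,
      ← lintegral_const_mul _ (ii_meas hS), ← lintegral_add_right _ ((ii_meas hS).const_mul _)]
    exact lintegral_mono key
  rw [← energy μ hR hL] at h1
  have h2 : 2 * c * (μ R * μ L) ≤ m * (μ R * μ L) + c * (μ R * μ L) := by
    calc 2 * c * (μ R * μ L) ≤ _ := h1
      _ ≤ m * (μ R * μ L) + c * c * μ S := add_le_add_left up _
      _ = m * (μ R * μ L) + c * (μ R * μ L) := by rw [mul_assoc c c, hcS]
  have h3 : c ≠ ⊤ := ENNReal.div_ne_top hcf hS0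
  have h4 : c * (μ R * μ L) ≤ m * (μ R * μ L) := by
    have e : 2 * c * (μ R * μ L) = c * (μ R * μ L) + c * (μ R * μ L) := by ring
    rw [e] at h2
    exact (ENNReal.add_le_add_iff_right (ENNReal.mul_ne_top h3 hcf)).1 h2
  have h5 : c ≤ m := (ENNReal.mul_le_mul_iff_left hc0 hcf).1 h4
  exact absurd hm (not_lt.2 h5)

end Pool.Agent.Lib.MP_5e7226_co.VF
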