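import Pool.Agent.Lib.MP_5e7226_co.VF.V1
import Pool.Agent.Lib.MP_5e7226_co.VF.V2

/-!
From lighting directions to covers by smaller homothetic copies; greedy choice of translates;
the bound for the number of copies.
-/

set_option autoImplicit false
set_option linter.unusedSectionVars false

open MeasureTheory Set Module Filter Topology
open scoped Pointwise ENNReal

namespace Pool.Agent.Lib.MP_5e7226_co.VF

variable {E : Type*} [NormedAddCommGroup E] [NormedSpace ℝ E]

/-- `n` directions lighting all of a compact convex set `K` give a cover of `K` by `n` homothetic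
copies with the same ratio `m < 1`. -/
theorem cover_of_lit {K : Set E} (hc : Convex ℝ K) (hK : IsCompact K)
    (hi : (interior K).Nonempty) {n : ℕ} (w : Fin n → E) (hw : ∀ x ∈ K, ∃ c, Lit K x (w c)) :
    ∃ m : ℝ, 0 < m ∧ m < 1 ∧ ∃ t : Fin n → E, ∀ x ∈ K, ∃ i, ∃ k ∈ K, x = t i + m • k := by
  obtain ⟨z, hz⟩ := hi
  have main : ∃ δ : ℝ, 0 < δ ∧ ∀ x ∈ K, x ∈ K → ∃ c, ∀ s e : ℝ, 0 < s → s ≤ δ → 0 ≤ e →
      e ≤ δ * s → x + s • w c + e • (x - z) ∈ interior K := by
    refine hK.induction_on (p := fun S => ∃ δ : ℝ, 0 < δ ∧ ∀ x ∈ S, x ∈ K → ∃ c, ∀ s e : ℝ,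
      0 < s → s ≤ δ → 0 ≤ e → e ≤ δ * s → x + s • w c + e • (x - z) ∈ interior K) ?_ ?_ ?_ ?_
    · exact ⟨1, one_pos, fun x hx => absurd hx (notMem_empty x)⟩
    · rintro S T hST ⟨δ, hδ, h⟩
      exact ⟨δ, hδ, fun x hx => h x (hST hx)⟩
    · rintro S T ⟨δ, hδ, h⟩ ⟨δ', hδ', h'⟩
      refine ⟨min δ δ', lt_min hδ hδ', fun x hx hxK => ?_⟩
      rcases hx with hx | hx
      · obtain ⟨c, hc'⟩ := h x hx hxK
        refine ⟨c, fun s e hs hsδ he heδ => hc' s e hs (hsδ.trans (min_le_left _ _)) he
          (heδ.trans (mul_le_mul_of_nonneg_right (min_le_left _ _) hs.le))⟩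
      · obtain ⟨c, hc'⟩ := h' x hx hxK
        refine ⟨c, fun s e hs hsδ he heδ => hc' s e hs (hsδ.trans (min_le_right _ _)) he
          (heδ.trans (mul_le_mul_of_nonneg_right (min_le_right _ _) hs.le))⟩
    · intro x hx
      obtain ⟨c, s1, hs1, hxs⟩ := hw x hx
      -- a positive `e1` with room
      have h1 : ∀ᶠ e in 𝓝 (0 : ℝ), x + s1 • w c + e • (x - z) ∈ interior K := by
        have hcont : ContinuousAt (fun e : ℝ => x + s1 • w c + e • (x - z)) 0 := by fun_prop
        refine hcont ?_
        simp only [zero_smul, add_zero]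
        exact isOpen_interior.mem_nhds hxs
      obtain ⟨ρ, hρ, hball⟩ := Metric.eventually_nhds_iff.1 h1
      set e1 : ℝ := ρ / 2 with he1
      have he1p : 0 < e1 := by positivity
      have h2 : x + s1 • w c + e1 • (x - z) ∈ interior K := by
        apply hball
        rw [Real.dist_eq, sub_zero, abs_of_pos he1p, he1]
        linarith
      refine ⟨{y | y + s1 • w c ∈ interior K ∧ y + s1 • w c + e1 • (y - z) ∈ interior K}, ?_, ?_⟩
      · refine mem_nhdsWithin_of_mem_nhds ?_
        have o1 : IsOpen {y : E | y + s1 • w c ∈ interior K ∧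
            y + s1 • w c + e1 • (y - z) ∈ interior K} := by
          have o2 : IsOpen ((fun y : E => y + s1 • w c) ⁻¹' interior K) :=
            isOpen_interior.preimage (by fun_prop)
          have o3 : IsOpen ((fun y : E => y + s1 • w c + e1 • (y - z)) ⁻¹' interior K) :=
            isOpen_interior.preimage (by fun_prop)
          exact o2.inter o3
        exact o1.mem_nhds ⟨hxs, h2⟩
      · refine ⟨min s1 (e1 / s1), lt_min hs1 (by positivity), ?_⟩
        rintro y ⟨hy1, hy2⟩ hyK
        refine ⟨c, fun s e hs hsδ he heδ => ?_⟩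
        have a1 : s ≤ s1 := hsδ.trans (min_le_left _ _)
        set lam : ℝ := s / s1 with hlam
        have hlam0 : 0 < lam := by positivity
        have hlam1 : lam ≤ 1 := by
          rw [hlam, div_le_one hs1]
          exact a1
        have hls : lam * s1 = s := by
          rw [hlam]
          field_simp
        -- the inner point
        set θ : ℝ := e / lam / e1 with hθ
        have hθ0 : 0 ≤ θ := by positivity
        have hθ1 : θ ≤ 1 := by
          rw [hθ, div_le_one he1p, div_le_iff₀ hlam0]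
          calc e ≤ min s1 (e1 / s1) * s := heδ
            _ ≤ e1 / s1 * s := mul_le_mul_of_nonneg_right (min_le_right _ _) hs.le
            _ = e1 * lam := by rw [hlam]; ring
        have hin : y + s1 • w c + (e / lam) • (y - z) ∈ interior K := by
          have h3 := hc.interior hy1 hy2 (sub_nonneg.2 hθ1) hθ0 (by ring)
          have e2 : (1 - θ) • (y + s1 • w c) + θ • (y + s1 • w c + e1 • (y - z)) =
              y + s1 • w c + (e / lam) • (y - z) := by
            have e3 : e / lam = θ * e1 := by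
              rw [hθ]
              field_simp
            rw [e3]
            module
          rwa [e2] at h3
        have h4 := hc.combo_self_interior_mem_interior hyK hin (sub_nonneg.2 hlam1) hlam0
          (by ring)
        have e5 : (1 - lam) • y + lam • (y + s1 • w c + (e / lam) • (y - z)) =
            y + s • w c + e • (y - z) := by
          have e6 : e = lam * (e / lam) := by field_simp
          rw [← hls]
          nth_rewrite 2 [e6]
          module
        rwa [e5] at h4
  obtain ⟨δ, hδ, h⟩ := main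
  refine ⟨1 / (1 + δ * δ), by positivity, ?_, fun c => (1 / (1 + δ * δ)) •
    ((δ * δ) • z - δ • w c), fun x hx => ?_⟩
  · rw [div_lt_one (by positivity)]
    have : 0 < δ * δ := by positivity
    linarith
  · obtain ⟨c, hc'⟩ := h x hx hx
    refine ⟨c, x + δ • w c + (δ * δ) • (x - z), interior_subset
      (hc' δ (δ * δ) hδ (le_refl _) (by positivity) (le_refl _)), ?_⟩
    rw [← smul_add]
    have e1 : (δ * δ) • z - δ • w c + (x + δ • w c + (δ * δ) • (x - z)) =
        (1 + δ * δ) • x := by
      module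
    rw [e1, smul_smul, one_div_mul_cancel (by positivity), one_smul]

section Measure

variable [MeasurableSpace E] [BorelSpace E] [FiniteDimensional ℝ E] (μ : Measure E)
  [μ.IsAddHaarMeasure]

/-- Greedy choice of translates of `L`. -/
theorem greedy {R L S : Set E} (hR : MeasurableSet R) (hL : MeasurableSet L)
    (hS : MeasurableSet S) (hL0 : μ L ≠ 0) (hLf : μ L ≠ ⊤) (hRf : μ R ≠ ⊤)
    (hS0 : μ S ≠ 0) (hSf : μ S ≠ ⊤) (hRS : ∀ x ∈ R, ∀ y ∈ L, x + y ∈ S) {p : ℝ}
    (hp : p < μ.real L / μ.real S) (hp1 : p ≤ 1) (n : ℕ) :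
    ∃ v : Fin n → E, μ.real (R \ ⋃ c, v c +ᵥ L) ≤ (1 - p) ^ n * μ.real R := by
  induction n with
  | zero =>
    refine ⟨Fin.elim0, ?_⟩
    simp
  | succ n ih =>
    obtain ⟨v, hv⟩ := ih
    set R' : Set E := R \ ⋃ c, v c +ᵥ L with hR'
    have hR'm : MeasurableSet R' := hR.diff (MeasurableSet.iUnion fun c => hL.const_vadd (v c))
    have hR'f : μ R' ≠ ⊤ := ne_top_of_le_ne_top hRf (measure_mono sdiff_subset)
    -- a good translate
    obtain ⟨u, hu⟩ : ∃ u : E, p * μ.real R' ≤ μ.real (R' ∩ (u +ᵥ L)) := by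
      by_cases hp0 : p ≤ 0
      · refine ⟨0, ?_⟩
        have h1 : 0 ≤ μ.real R' := measureReal_nonneg
        have h2 : 0 ≤ μ.real (R' ∩ ((0 : E) +ᵥ L)) := measureReal_nonneg
        nlinarith
      push Not at hp0
      by_cases h0 : μ R' = 0
      · refine ⟨0, ?_⟩
        have h1 : μ.real R' = 0 := by rw [Measure.real, h0]; rfl
        rw [h1, mul_zero]
        exact measureReal_nonneg
      have hlt : ENNReal.ofReal (p * μ.real R') < μ R' * μ L / μ S := by
        have e1 : μ R' * μ L / μ S = ENNReal.ofReal (μ.real R' * μ.real L / μ.real S) := by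
          have hS0' : 0 < μ.real S := ENNReal.toReal_pos hS0 hSf
          rw [ENNReal.ofReal_div_of_pos hS0', ENNReal.ofReal_mul measureReal_nonneg]
          rw [ofReal_measureReal hR'f, ofReal_measureReal hLf, ofReal_measureReal hSf]
        rw [e1]
        have h2 : 0 < μ.real R' := ENNReal.toReal_pos h0 hR'f
        have h3 : 0 < μ.real L := ENNReal.toReal_pos hL0 hLf
        have h4 : 0 < μ.real S := ENNReal.toReal_pos hS0 hSf
        refine (ENNReal.ofReal_lt_ofReal_iff (by positivity)).2 ?_
        calc p * μ.real R' < (μ.real L / μ.real S) * μ.real R' :=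
              mul_lt_mul_of_pos_right hp h2
          _ = μ.real R' * μ.real L / μ.real S := by ring
      obtain ⟨u, hu⟩ := exists_hit μ hR'm hL hS hL0 hLf hR'f h0 hS0 hSf
        (fun x hx y hy => hRS x hx.1 y hy) hlt
      refine ⟨u, ?_⟩
      have h5 : 0 ≤ p * μ.real R' := mul_nonneg hp0.le measureReal_nonneg
      have h6 := ENNReal.toReal_mono
        (ne_top_of_le_ne_top hR'f (measure_mono inter_subset_left)) hu.le
      rwa [ENNReal.toReal_ofReal h5] at h6
    refine ⟨Fin.snoc v u, ?_⟩
    have hset : R \ ⋃ c, (Fin.snoc v u : Fin (n + 1) → E) c +ᵥ L = R' \ (u +ᵥ L) := by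
      ext z
      simp only [Set.mem_sdiff, mem_iUnion, not_exists, hR']
      constructor
      · rintro ⟨h1, h2⟩
        refine ⟨⟨h1, fun c => ?_⟩, ?_⟩
        · have := h2 c.castSucc
          rwa [Fin.snoc_castSucc] at this
        · have := h2 (Fin.last n)
          rwa [Fin.snoc_last] at this
      · rintro ⟨⟨h1, h2⟩, h3⟩
        refine ⟨h1, fun c => ?_⟩
        refine Fin.lastCases ?_ (fun c => ?_) c
        · rwa [Fin.snoc_last]
        · rw [Fin.snoc_castSucc]
          exact h2 c
    rw [hset]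
    have h1 : μ.real (R' ∩ (u +ᵥ L)) + μ.real (R' \ (u +ᵥ L)) = μ.real R' :=
      measureReal_inter_add_sdiff (hL.const_vadd u) hR'f
    have h2 : 0 ≤ 1 - p := by linarith
    calc μ.real (R' \ (u +ᵥ L)) ≤ (1 - p) * μ.real R' := by linarith
      _ ≤ (1 - p) * ((1 - p) ^ n * μ.real R) := mul_le_mul_of_nonneg_left hv h2
      _ = (1 - p) ^ (n + 1) * μ.real R := by ring

/-- **The number of smaller homothetic copies.** -/
theorem cover_count {K : Set E} (hc : Convex ℝ K) (hK : IsCompact K) (h0 : μ K ≠ 0) {t : ℝ}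
    (ht : 0 < t) {n : ℕ}
    (hn : ((1 + t) ^ finrank ℝ E - 1) * (1 - 1 / (2 + t) ^ finrank ℝ E) ^ n <
      t ^ finrank ℝ E) :
    ∃ m : ℝ, 0 < m ∧ m < 1 ∧ ∃ v : Fin (n + 1) → E, ∀ x ∈ K, ∃ i, ∃ k ∈ K, x = v i + m • k := by
  set d := finrank ℝ E with hd
  have hfin : μ K ≠ ⊤ := hK.measure_lt_top.ne
  have hint : μ (interior K) = μ K := by
    refine le_antisymm (measure_mono interior_subset) ?_
    have h1 := hc.addHaar_frontier μ
    calc μ K ≤ μ (interior K ∪ frontier K) := by
          refine measure_mono fun x hx => ?_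
          by_cases h : x ∈ interior K
          · exact Or.inl h
          · exact Or.inr ⟨subset_closure hx, h⟩
      _ ≤ μ (interior K) + μ (frontier K) := measure_union_le _ _
      _ = μ (interior K) := by rw [h1, add_zero]
  have hi : (interior K).Nonempty := by
    by_contra hcon
    rw [not_nonempty_iff_eq_empty] at hcon
    rw [hcon, measure_empty] at hint
    exact h0 hint.symm
  by_contra hcon
  -- the hypothesis of the volume of the holes
  have H : ∀ w : Fin (n + 1) → E, ∃ x ∈ K, ∀ c, ¬ Lit K x (w c) := by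
    intro w
    by_contra h
    push Not at h
    exact hcon (cover_of_lit hc hK hi w h)
  obtain ⟨z0, hz0⟩ := hi
  set V : ℝ := μ.real K with hV
  have hV0 : 0 < V := ENNReal.toReal_pos h0 hfin
  have hKm : MeasurableSet K := hK.isClosed.measurableSet
  have hIm : MeasurableSet (interior K) := isOpen_interior.measurableSet
  have hIV : μ.real (interior K) = V := by rw [Measure.real, hint]; rfl
  have hscale : ∀ r : ℝ, 0 ≤ r → μ.real (r • K) = r ^ d * V := by
    intro r hr
    rw [Measure.real, Measure.addHaar_smul, ENNReal.toReal_mul, abs_of_nonneg (by positivity),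
      ENNReal.toReal_ofReal (by positivity)]
    rfl
  have hcomp : ∀ r : ℝ, IsCompact (r • K) := fun r => hK.smul r
  have hadd : ∀ r s : ℝ, 0 ≤ r → 0 ≤ s → r • K + s • K = (r + s) • K := fun r s hr hs =>
    (hc.add_smul hr hs).symm
  -- the set to be covered
  set R : Set E := ((1 + t) • K) \ ((t • z0) +ᵥ interior K) with hR
  have hRm : MeasurableSet R :=
    (hcomp _).isClosed.measurableSet.diff (hIm.const_vadd (t • z0))
  have hsub : (t • z0) +ᵥ interior K ⊆ (1 + t) • K := by
    rintro _ ⟨k, hk, rfl⟩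
    have h1 : t • z0 + k ∈ t • K + (1 : ℝ) • K :=
      ⟨t • z0, smul_mem_smul_set (interior_subset hz0), k,
        by rw [one_smul]; exact interior_subset hk, rfl⟩
    rw [hadd t 1 ht.le zero_le_one, add_comm t 1] at h1
    simpa only [vadd_eq_add] using h1
  have hRV : μ.real R = ((1 + t) ^ d - 1) * V := by
    have h1 : μ.real ((1 + t) • K ∩ ((t • z0) +ᵥ interior K)) + μ.real R =
        μ.real ((1 + t) • K) :=
      measureReal_inter_add_sdiff (hIm.const_vadd (t • z0)) (hcomp _).measure_lt_top.ne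
    rw [inter_eq_self_of_subset_right hsub] at h1
    have h2 : μ.real ((t • z0) +ᵥ interior K) = V := by
      rw [← hIV, Measure.real, Measure.real, measure_vadd]
    rw [h2, hscale _ (by positivity)] at h1
    linarith
  have hRf : μ R ≠ ⊤ :=
    ne_top_of_le_ne_top (hcomp (1 + t)).measure_lt_top.ne (measure_mono sdiff_subset)
  have hSV : μ.real ((2 + t) • K) = (2 + t) ^ d * V := hscale _ (by positivity)
  have hSf : μ ((2 + t) • K) ≠ ⊤ := (hcomp _).measure_lt_top.ne
  have hS0 : μ ((2 + t) • K) ≠ 0 := by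
    intro h
    have h1 : μ.real ((2 + t) • K) = 0 := by rw [Measure.real, h]; rfl
    rw [hSV] at h1
    have : 0 < (2 + t) ^ d * V := by positivity
    linarith
  have hRS : ∀ x ∈ R, ∀ y ∈ interior K, x + y ∈ (2 + t) • K := by
    intro x hx y hy
    have h1 : x + y ∈ (1 + t) • K + (1 : ℝ) • K :=
      ⟨x, hx.1, y, by rw [one_smul]; exact interior_subset hy, rfl⟩
    rw [hadd (1 + t) 1 (by positivity) zero_le_one] at h1
    have e : 1 + t + 1 = 2 + t := by ring
    rwa [e] at h1
  have hratio : μ.real (interior K) / μ.real ((2 + t) • K) = 1 / (2 + t) ^ d := by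
    rw [hIV, hSV]
    field_simp
  -- room for the proportion
  obtain ⟨p, hp, hpn⟩ : ∃ p : ℝ, p < 1 / (2 + t) ^ d ∧
      ((1 + t) ^ d - 1) * (1 - p) ^ n < t ^ d := by
    have hcont : ContinuousAt (fun p : ℝ => ((1 + t) ^ d - 1) * (1 - p) ^ n)
        (1 / (2 + t) ^ d) := by fun_prop
    have h1 := hcont.eventually_lt continuousAt_const hn
    obtain ⟨ε, hε, hball⟩ := Metric.eventually_nhds_iff.1 h1
    refine ⟨1 / (2 + t) ^ d - ε / 2, by linarith, hball ?_⟩
    rw [Real.dist_eq]
    have : 1 / (2 + t) ^ d - ε / 2 - 1 / (2 + t) ^ d = - (ε / 2) := by ring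
    rw [this, abs_neg, abs_of_pos (by positivity)]
    linarith
  have hp1 : p ≤ 1 := by
    refine hp.le.trans ?_
    rw [div_le_one (by positivity)]
    exact one_le_pow₀ (by linarith)
  obtain ⟨v, hv⟩ := greedy μ hRm hIm (hcomp (2 + t)).isClosed.measurableSet
    (by rw [hint]; exact h0) (by rw [hint]; exact hfin) hRf hS0 hSf hRS
    (p := p) (by rw [hratio]; exact hp) hp1 n
  -- the holes
  have hA : MeasurableSet (t • K) := (hcomp t).isClosed.measurableSet
  have h1 := hole_volume μ hc ⟨z0, hz0⟩ H (Fin.snoc v (t • z0)) hA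
  have hset : (t • K + K) \ ⋃ c, (Fin.snoc v (t • z0) : Fin (n + 1) → E) c +ᵥ interior K =
      R \ ⋃ c, v c +ᵥ interior K := by
    have e1 : t • K + K = (1 + t) • K := by
      have := hadd t 1 ht.le zero_le_one
      rw [one_smul] at this
      rw [this, add_comm]
    rw [e1]
    ext z
    simp only [Set.mem_sdiff, mem_iUnion, not_exists, hR]
    constructor
    · rintro ⟨h1, h2⟩
      refine ⟨⟨h1, ?_⟩, fun c => ?_⟩
      · have := h2 (Fin.last n)
        rwa [Fin.snoc_last] at this
      · have := h2 c.castSucc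
        rwa [Fin.snoc_castSucc] at this
    · rintro ⟨⟨h1, h2⟩, h3⟩
      refine ⟨h1, fun c => ?_⟩
      refine Fin.lastCases ?_ (fun c => ?_) c
      · rwa [Fin.snoc_last]
      · rw [Fin.snoc_castSucc]
        exact h3 c
  rw [hset] at h1
  have h2 : μ.real (t • K) ≤ μ.real (R \ ⋃ c, v c +ᵥ interior K) :=
    ENNReal.toReal_mono (ne_top_of_le_ne_top hRf (measure_mono sdiff_subset)) h1
  rw [hscale t ht.le] at h2
  rw [hRV] at hv
  have h3 : t ^ d * V ≤ (((1 + t) ^ d - 1) * (1 - p) ^ n) * V := by
    calc t ^ d * V ≤ (1 - p) ^ n * (((1 + t) ^ d - 1) * V) := h2.trans hv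
      _ = (((1 + t) ^ d - 1) * (1 - p) ^ n) * V := by ring
  have h4 := le_of_mul_le_mul_right h3 hV0
  linarith

end Measure

end Pool.Agent.Lib.MP_5e7226_co.VF
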