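import Mathlib

/-!
Numerics: the criterion `((1 + t)^d - 1) (1 - (2 + t)^(-d))^n < t^d` for explicit `t` and `n`.
-/

set_option autoImplicit false

namespace Pool.Agent.Lib.MP_5e7226_co.VF

/-- The criterion. -/
def Crit (d : ℕ) (t : ℝ) (n : ℕ) : Prop :=
  0 < t ∧ ((1 + t) ^ d - 1) * (1 - 1 / (2 + t) ^ d) ^ n < t ^ d

theorem crit_of_le {d : ℕ} {t : ℝ} (ht : 0 < t) {n : ℕ}
    (h : (2 + t) ^ d * (d * Real.log (1 + 1 / t)) ≤ n) : Crit d t n := by
  refine ⟨ht, ?_⟩
  set p : ℝ := 1 / (2 + t) ^ d with hp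
  have hP : 0 < (2 + t) ^ d := by positivity
  have hp1 : p ≤ 1 := by
    rw [hp, div_le_one hP]
    exact one_le_pow₀ (by linarith)
  have h1 : d * Real.log (1 + 1 / t) ≤ n * p := by
    rw [hp, mul_one_div, le_div_iff₀ hP]
    linarith
  have h2 : (1 - p) ^ n ≤ (t / (1 + t)) ^ d := by
    have h3 : (1 - p) ^ n ≤ Real.exp (-(n * p)) := by
      have h4 : 1 - p ≤ Real.exp (-p) := by
        have := Real.add_one_le_exp (-p)
        linarith
      calc (1 - p) ^ n ≤ (Real.exp (-p)) ^ n := pow_le_pow_left₀ (by linarith) h4 n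
        _ = Real.exp (-(n * p)) := by rw [← Real.exp_nat_mul]; ring_nf
    have h5 : Real.exp (-(n * p)) ≤ Real.exp (-(d * Real.log (1 + 1 / t))) :=
      Real.exp_le_exp.2 (by linarith)
    have h6 : Real.exp (-(d * Real.log (1 + 1 / t))) = (t / (1 + t)) ^ d := by
      have e1 : t / (1 + t) = (1 + 1 / t)⁻¹ := by
        field_simp
        ring
      rw [e1, inv_pow, Real.exp_neg, Real.exp_nat_mul, Real.exp_log (by positivity)]
    rw [← h6]
    exact h3.trans h5
  have h7 : 0 < (t / (1 + t)) ^ d := by positivity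
  have h8 : 0 ≤ (1 + t) ^ d - 1 := by
    have : 1 ≤ (1 + t) ^ d := one_le_pow₀ (by linarith)
    linarith
  calc ((1 + t) ^ d - 1) * (1 - p) ^ n ≤ ((1 + t) ^ d - 1) * (t / (1 + t)) ^ d :=
        mul_le_mul_of_nonneg_left h2 h8
    _ < (1 + t) ^ d * (t / (1 + t)) ^ d := mul_lt_mul_of_pos_right (by linarith) h7
    _ = t ^ d := by
        rw [← mul_pow]
        congr 1
        field_simp

theorem log_five : (1.6 : ℝ) ≤ Real.log 5 := by
  have h1 : Real.log ((Real.exp 1) ^ 8) ≤ Real.log ((5 : ℝ) ^ 5) := by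
    refine Real.log_le_log (by positivity) ?_
    have h2 : Real.exp 1 < 2.7182818286 := Real.exp_one_lt_d9
    calc (Real.exp 1) ^ 8 ≤ (2.7182818286 : ℝ) ^ 8 :=
          pow_le_pow_left₀ (Real.exp_pos 1).le h2.le 8
      _ ≤ (5 : ℝ) ^ 5 := by norm_num
  rw [Real.log_pow, Real.log_pow, Real.log_exp] at h1
  push_cast at h1
  norm_num at h1 ⊢
  linarith

theorem log_le (L : ℝ) (hL : 0 < L) : Real.log L ≤ 0.368 * L := by
  have h1 := Real.add_one_le_exp (Real.log L - 1)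
  rw [Real.exp_sub, Real.exp_log hL] at h1
  have h2 : (2.7182818283 : ℝ) < Real.exp 1 := Real.exp_one_gt_d9
  have h3 : L / Real.exp 1 ≤ 0.368 * L := by
    rw [div_le_iff₀ (Real.exp_pos 1)]
    nlinarith
  linarith

theorem exp_le {x : ℝ} (h0 : 0 ≤ x) (h1 : x ≤ 1) :
    Real.exp x ≤ 1 + x + x ^ 2 / 2 + 2 / 9 * x ^ 3 := by
  have h := Real.exp_bound' h0 h1 (n := 3) (by norm_num)
  refine h.trans (le_of_eq ?_)
  simp [Finset.sum_range_succ, Nat.factorial]
  ring

/-- The general bound for `d ≥ 5`. -/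
theorem numerics5 {d : ℕ} (hd : 5 ≤ d) : ∃ t : ℝ, 0 < t ∧
    (2 + t) ^ d * (d * Real.log (1 + 1 / t)) + 2 ≤
      2 ^ d * (d * Real.log d + d * Real.log (Real.log d) + d) := by
  have hD : (5 : ℝ) ≤ d := by exact_mod_cast hd
  have hD0 : (0 : ℝ) < d := by linarith
  set L : ℝ := Real.log d with hLdef
  have hL : 1.6 ≤ L := log_five.trans (Real.log_le_log (by norm_num) hD)
  have hL0 : 0 < L := by
    norm_num at hL ⊢
    linarith
  set g : ℝ := Real.log L with hg
  have hg1 : g ≤ 0.368 * L := log_le L hL0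
  have hg0 : 0 ≤ g := Real.log_nonneg (by norm_num at hL ⊢; linarith)
  set a : ℝ := 1 / L with ha
  have ha0 : 0 < a := by positivity
  have haL : a * L = 1 := by rw [ha]; field_simp
  have ha1 : a ≤ 0.625 := by
    rw [ha, div_le_iff₀ hL0]
    norm_num at hL ⊢
    linarith
  set t : ℝ := 1 / (d * L) with ht
  have ht0 : 0 < t := by positivity
  have hta : t = a / d := by rw [ht, ha]; field_simp
  have ht1 : t ≤ 0.125 := by
    rw [hta, div_le_iff₀ hD0]
    norm_num at ha1 ⊢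
    linarith
  refine ⟨t, ht0, ?_⟩
  -- the power
  have h1 : (2 + t) ^ d ≤ 2 ^ d * Real.exp (a / 2) := by
    have e1 : 2 + t = 2 * (1 + t / 2) := by ring
    rw [e1, mul_pow]
    refine mul_le_mul_of_nonneg_left ?_ (by positivity)
    have h2 : 1 + t / 2 ≤ Real.exp (t / 2) := by
      have := Real.add_one_le_exp (t / 2)
      linarith
    calc (1 + t / 2) ^ d ≤ Real.exp (t / 2) ^ d := pow_le_pow_left₀ (by positivity) h2 d
      _ = Real.exp (a / 2) := by
        rw [← Real.exp_nat_mul]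
        congr 1
        rw [hta]
        field_simp
  have h2 := exp_le (x := a / 2) (by positivity) (by norm_num at ha1 ⊢; linarith)
  -- the logarithm
  have h3 : Real.log (1 + 1 / t) ≤ t + L + g := by
    have e1 : 1 + 1 / t = (1 + t) * (d * L) := by
      rw [ht]
      field_simp
      ring
    rw [e1, Real.log_mul (by positivity) (by positivity), Real.log_mul (by positivity)
      (by positivity)]
    have := Real.log_le_sub_one_of_pos (x := 1 + t) (by positivity)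
    linarith
  have h30 : 0 ≤ Real.log (1 + 1 / t) := Real.log_nonneg (by
    have : 0 < 1 / t := by positivity
    linarith)
  -- the main inequality
  have hE : Real.exp (a / 2) ≤ 1 + a / 2 + a ^ 2 / 8 + a ^ 3 / 36 := by
    refine h2.trans (le_of_eq ?_)
    ring
  have hE1 : 1 + a / 2 + a ^ 2 / 8 + a ^ 3 / 36 ≤ 1.369 := by
    have b1 : a ^ 2 ≤ 0.625 ^ 2 := pow_le_pow_left₀ ha0.le ha1 2
    have b2 : a ^ 3 ≤ 0.625 ^ 3 := pow_le_pow_left₀ ha0.le ha1 3
    norm_num at ha1 b1 b2 ⊢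
    linarith
  have hmain : (1 + a / 2 + a ^ 2 / 8 + a ^ 3 / 36) * (t + L + g) + 0.0125 ≤ L + g + 1 := by
    have e1 : (1 + a / 2 + a ^ 2 / 8 + a ^ 3 / 36) * (t + L + g) =
        (L + g) + (1 + a / 2 + a ^ 2 / 8 + a ^ 3 / 36) * t +
          (a / 2 + a ^ 2 / 8 + a ^ 3 / 36) * (L + g) := by ring
    have h4 : (1 + a / 2 + a ^ 2 / 8 + a ^ 3 / 36) * t ≤ 1.369 * 0.125 :=
      mul_le_mul hE1 ht1 ht0.le (by norm_num)
    have h5 : (a / 2 + a ^ 2 / 8 + a ^ 3 / 36) * (L + g) ≤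
        (a / 2 + a ^ 2 / 8 + a ^ 3 / 36) * (1.368 * L) := by
      refine mul_le_mul_of_nonneg_left ?_ (by positivity)
      norm_num at hg1 ⊢
      linarith
    have e2 : (a / 2 + a ^ 2 / 8 + a ^ 3 / 36) * (1.368 * L) =
        1.368 * (1 / 2 + a / 8 + a ^ 2 / 36) * (a * L) := by ring
    rw [e2, haL, mul_one] at h5
    have b1 : a ^ 2 ≤ 0.625 ^ 2 := pow_le_pow_left₀ ha0.le ha1 2
    rw [e1]
    norm_num at ha1 b1 h4 h5 ⊢
    linarith
  have h8 : (2 : ℝ) ≤ 2 ^ d * d * 0.0125 := by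
    have h9 : (32 : ℝ) ≤ 2 ^ d := by
      calc (32 : ℝ) = 2 ^ 5 := by norm_num
        _ ≤ 2 ^ d := pow_le_pow_right₀ (by norm_num) hd
    have h10 : (160 : ℝ) ≤ 2 ^ d * d := by nlinarith
    norm_num
    linarith
  calc (2 + t) ^ d * (d * Real.log (1 + 1 / t)) + 2
      ≤ (2 ^ d * (1 + a / 2 + a ^ 2 / 8 + a ^ 3 / 36)) * (d * (t + L + g)) +
          2 ^ d * d * 0.0125 := by
        refine add_le_add ?_ h8
        refine mul_le_mul (h1.trans (mul_le_mul_of_nonneg_left hE (by positivity))) ?_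
          (by positivity) (by positivity)
        exact mul_le_mul_of_nonneg_left h3 hD0.le
    _ = 2 ^ d * d * ((1 + a / 2 + a ^ 2 / 8 + a ^ 3 / 36) * (t + L + g) + 0.0125) := by ring
    _ ≤ 2 ^ d * d * (L + g + 1) := mul_le_mul_of_nonneg_left hmain (by positivity)
    _ = 2 ^ d * (d * L + d * g + d) := by ring

theorem pow_split {x y : ℝ} (hx : 0 ≤ x) {a b c : ℕ} (h : x ^ a ≤ y) :
    x ^ (a * b + c) ≤ y ^ b * x ^ c := by
  rw [pow_add, pow_mul]
  exact mul_le_mul_of_nonneg_right (pow_le_pow_left₀ (pow_nonneg hx a) h b) (pow_nonneg hx c)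

theorem crit3 : Crit 3 (1 / 2) 45 := by
  refine ⟨by norm_num, ?_⟩
  norm_num

theorem crit4 : Crit 4 (1 / 4) 149 := by
  refine ⟨by norm_num, ?_⟩
  norm_num

/-- The bound for all `d ≥ 3`. -/
theorem numerics {d : ℕ} (hd : 3 ≤ d) : ∃ (t : ℝ) (n : ℕ), Crit d t n ∧
    ((n + 1 : ℕ) : ℝ) ≤ 2 ^ d * (d * Real.log d + d * Real.log (Real.log d) + d) := by
  rcases Nat.lt_or_ge d 5 with h | h
  · have hd' : d = 3 ∨ d = 4 := by omega
    rcases hd' with rfl | rfl
    · refine ⟨1 / 2, 45, crit3, ?_⟩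
      have h1 : 1 ≤ Real.log 3 := by
        rw [Real.le_log_iff_exp_le (by norm_num)]
        have := Real.exp_one_lt_d9
        norm_num at this ⊢
        linarith
      have h2 : 0 ≤ Real.log (Real.log 3) := Real.log_nonneg h1
      push_cast
      norm_num
      linarith
    · refine ⟨1 / 4, 149, crit4, ?_⟩
      have h1 : 1.386 ≤ Real.log 4 := by
        have e : (4 : ℝ) = 2 ^ 2 := by norm_num
        rw [e, Real.log_pow]
        have := Real.log_two_gt_d9
        push_cast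
        norm_num at this ⊢
        linarith
      have h2 : 0 ≤ Real.log (Real.log 4) :=
        Real.log_nonneg (by norm_num at h1 ⊢; linarith)
      push_cast
      norm_num at h1 ⊢
      linarith
  · obtain ⟨t, ht, hb⟩ := numerics5 h
    refine ⟨t, ⌈(2 + t) ^ d * (d * Real.log (1 + 1 / t))⌉₊,
      crit_of_le ht (Nat.le_ceil _), ?_⟩
    have h0 : 0 ≤ (2 + t) ^ d * (d * Real.log (1 + 1 / t)) := by
      have : 0 ≤ Real.log (1 + 1 / t) := Real.log_nonneg (by
        have : 0 < 1 / t := by positivity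
        linarith)
      positivity
    have h1 := Nat.ceil_lt_add_one h0
    push_cast
    linarith

theorem crit5 : Crit 5 (1 / 6) 431 := by
  refine ⟨by norm_num, ?_⟩
  have e1 : (1 : ℝ) - 1 / (2 + 1 / 6) ^ 5 = 363517 / 371293 := by norm_num
  rw [e1]
  have h1 : (363517 / 371293 : ℝ) ^ 43 ≤ 0.40253 := by norm_num
  have h2 := pow_split (b := 10) (c := 1) (by norm_num) h1
  have h3 : ((1 + 1 / 6 : ℝ) ^ 5 - 1) * ((0.40253 : ℝ) ^ 10 * (363517 / 371293) ^ 1) <
      (1 / 6) ^ 5 := by norm_num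
  exact (mul_le_mul_of_nonneg_left h2 (by norm_num)).trans_lt h3

theorem crit6 : Crit 6 (1 / 7) 1145 := by
  refine ⟨by norm_num, ?_⟩
  have e1 : (1 : ℝ) - 1 / (2 + 1 / 7) ^ 6 = 11272976 / 11390625 := by norm_num
  rw [e1]
  have h1 : (11272976 / 11390625 : ℝ) ^ 229 ≤ 0.09278 := by norm_num
  have h2 := pow_split (b := 5) (c := 0) (by norm_num) h1
  have h3 : ((1 + 1 / 7 : ℝ) ^ 6 - 1) * ((0.09278 : ℝ) ^ 5 * (11272976 / 11390625) ^ 0) <
      (1 / 7) ^ 6 := by norm_num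
  exact (mul_le_mul_of_nonneg_left h2 (by norm_num)).trans_lt h3

theorem crit7 : Crit 7 (1 / 9) 2883 := by
  refine ⟨by norm_num, ?_⟩
  have e1 : (1 : ℝ) - 1 / (2 + 1 / 9) ^ 7 = 889088770 / 893871739 := by norm_num
  rw [e1]
  have h1 : (889088770 / 893871739 : ℝ) ^ 93 ≤ 0.60716 := by norm_num
  have h2 := pow_split (b := 31) (c := 0) (by norm_num) h1
  have h3 : ((1 + 1 / 9 : ℝ) ^ 7 - 1) * ((0.60716 : ℝ) ^ 31 * (889088770 / 893871739) ^ 0) <
      (1 / 9) ^ 7 := by norm_num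
  exact (mul_le_mul_of_nonneg_left h2 (by norm_num)).trans_lt h3

theorem crit8 : Crit 8 (1 / 11) 7001 := by
  refine ⟨by norm_num, ?_⟩
  have e1 : (1 : ℝ) - 1 / (2 + 1 / 11) ^ 8 = 78096626400 / 78310985281 := by norm_num
  rw [e1]
  have h1 : (78096626400 / 78310985281 : ℝ) ^ 100 ≤ 0.760254 := by norm_num
  have h2 := pow_split (b := 70) (c := 1) (by norm_num) h1
  have h3 : ((1 + 1 / 11 : ℝ) ^ 8 - 1) * ((0.760254 : ℝ) ^ 70 *
      (78096626400 / 78310985281) ^ 1) < (1 / 11) ^ 8 := by norm_num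
  exact (mul_le_mul_of_nonneg_left h2 (by norm_num)).trans_lt h3

end Pool.Agent.Lib.MP_5e7226_co.VF
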