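import Pool.Agent.Lib.MP_5e7226_co.AB.A4
import Pool.Agent.Lib.MP_5e7226_co.VF.V3
import Pool.Agent.Lib.MP_5e7226_co.VF.V4

/-!
Final form of the bound for all convex bodies.
-/

set_option autoImplicit false
set_option linter.unusedSectionVars false

open MeasureTheory Set Module
open scoped Pointwise InnerProductSpace

namespace Pool.Agent.Lib.MP_5e7226_co.VF

/-- The criterion gives `n + 1` hyperplanes and `n + 1` exterior points. -/
theorem bound_of_crit {d : ℕ} (hd : 1 ≤ d) {t : ℝ} {n : ℕ} (h : Crit d t n)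
    (K : Set (EuclideanSpace ℝ (Fin d))) (hc : Convex ℝ K) (hK : IsCompact K) :
    (∀ o ∈ interior K, ∃ (w : Fin (n + 1) → EuclideanSpace ℝ (Fin d)) (b : Fin (n + 1) → ℝ),
      ∀ u x₀ : EuclideanSpace ℝ (Fin d), u ≠ 0 → x₀ ∈ K →
        (∀ y ∈ K, ⟪u, y⟫_ℝ ≤ ⟪u, x₀⟫_ℝ) →
          ∃ i, ⟪w i, o⟫_ℝ < b i ∧ ∀ x ∈ K, ⟪u, x⟫_ℝ = ⟪u, x₀⟫_ℝ → b i < ⟪w i, x⟫_ℝ) ∧
    ((interior K).Nonempty → ∃ p : Fin (n + 1) → EuclideanSpace ℝ (Fin d), (∀ i, p i ∉ K) ∧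
      ∀ q ∈ frontier K, ∃ i, ∃ s : ℝ, 0 < s ∧ q + s • (q - p i) ∈ interior K) := by
  have H : ∀ L : Set (EuclideanSpace ℝ (Fin d)), Convex ℝ L → IsCompact L → volume L ≠ 0 →
      ∃ m : ℝ, 0 < m ∧ m < 1 ∧ ∃ v : Fin (n + 1) → EuclideanSpace ℝ (Fin d),
        ∀ x ∈ L, ∃ i, ∃ k ∈ L, x = v i + m • k := by
    intro L hLc hL h0
    refine cover_count volume hLc hL h0 h.1 ?_
    rw [finrank_euclideanSpace_fin]
    exact h.2
  refine ⟨fun o ho => ?_, fun hne => ?_⟩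
  · obtain ⟨m, hm0, hm1, v, hv⟩ :=
      H (AB.pol K o) (AB.pol_convex K o) (AB.pol_isCompact ho) (AB.pol_volume hK o)
    exact AB.separated_of_cover ho hm0.le hm1 v hv
  · obtain ⟨z, hz⟩ := hne
    have h0 : volume K ≠ 0 := by
      have h1 : 0 < volume (interior K) := isOpen_interior.measure_pos _ ⟨z, hz⟩
      exact (h1.trans_le (measure_mono interior_subset)).ne'
    obtain ⟨m, hm0, hm1, v, hv⟩ := H K hc hK h0
    exact AB.illuminated_of_cover hd hc hK hz hm0 hm1 v hv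

/-- The volume of the holes. -/
theorem holes {d : ℕ} (hd : 1 ≤ d) (K : Set (EuclideanSpace ℝ (Fin d))) (hc : Convex ℝ K)
    (hK : IsCompact K) (hi : (interior K).Nonempty) {q : ℕ}
    (hq : ¬ ∃ p : Fin q → EuclideanSpace ℝ (Fin d), (∀ i, p i ∉ K) ∧
      ∀ x ∈ frontier K, ∃ i, ∃ s : ℝ, 0 < s ∧ x + s • (x - p i) ∈ interior K)
    (v : Fin q → EuclideanSpace ℝ (Fin d)) (A : Set (EuclideanSpace ℝ (Fin d)))
    (hA : MeasurableSet A) :
    volume A ≤ volume ((A + K) \ ⋃ i, v i +ᵥ interior K) := by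
  refine hole_volume volume hc hi ?_ v hA
  intro w
  by_contra h
  push Not at h
  obtain ⟨m, hm0, hm1, t, ht⟩ := cover_of_lit hc hK hi w h
  obtain ⟨z, hz⟩ := hi
  exact hq (AB.illuminated_of_cover hd hc hK hz hm0 hm1 t ht)

end Pool.Agent.Lib.MP_5e7226_co.VF
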